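import Mathlib

/-!
# SYS: numerical words (common definitions)

Steps of the peeling of a hole of perimeter `p`: `T` = a new triangle (`p → p + 1`); `L k a`, `R k a` = a disc of
perimeter `k` with `a` triangles is cut off on the left, right (`p → p - (k + 2) ≥ 1`).
Words are lists of steps, the first step first.
-/

namespace SYS

/-- Steps. -/
inductive Stp : Type
  | T : Stp
  | L : ℕ → ℕ → Stp
  | R : ℕ → ℕ → Stp
  deriving DecidableEq

/-- The perimeter after the step. -/
def Stp.nx (p : ℕ) : Stp → ℕ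
  | .T => p + 1
  | .L k _ => p - (k + 2)
  | .R k _ => p - (k + 2)

/-- The step is possible at perimeter `p` (the new perimeter is at least 1). -/
def Stp.Ok (p : ℕ) : Stp → Prop
  | .T => True
  | .L k _ => k + 3 ≤ p
  | .R k _ => k + 3 ≤ p

/-- Number of triangles. -/
def Stp.vol : Stp → ℕ
  | .T => 1
  | .L _ a => a
  | .R _ a => a

/-- Weight of a step: `A` for `T`, `q k a` for `L k a` and `R k a`. -/
def Stp.wt (A : ℝ) (q : ℕ → ℕ → ℝ) : Stp → ℝ
  | .T => A
  | .L k a => q k a
  | .R k a => q k a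

/-- The perimeter at the end of the word `w` started at perimeter `p`. -/
def wend (p : ℕ) (w : List Stp) : ℕ := w.foldl Stp.nx p

/-- All steps of the word are possible. -/
def WOk : ℕ → List Stp → Prop
  | _, [] => True
  | p, s :: w => s.Ok p ∧ WOk (s.nx p) w

/-- Number of triangles of the word. -/
def wvol (w : List Stp) : ℕ := (w.map Stp.vol).sum

/-- Weight of a word (product of the weights of the steps). -/
def wwt (A : ℝ) (q : ℕ → ℕ → ℝ) (w : List Stp) : ℝ := (w.map (Stp.wt A q)).prod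

/-- Prefix-free sets of words. -/
def PF (W : Finset (List Stp)) : Prop := ∀ u ∈ W, ∀ w ∈ W, u <+: w → u = w

theorem wend_nil (p : ℕ) : wend p [] = p := rfl
theorem wend_cons (p : ℕ) (s : Stp) (w : List Stp) : wend p (s :: w) = wend (s.nx p) w := rfl
theorem wend_append (p : ℕ) (u w : List Stp) : wend p (u ++ w) = wend (wend p u) w := List.foldl_append

theorem wvol_nil : wvol [] = 0 := rfl
theorem wvol_cons (s : Stp) (w : List Stp) : wvol (s :: w) = s.vol + wvol w := by simp [wvol]
theorem wvol_append (u w : List Stp) : wvol (u ++ w) = wvol u + wvol w := by simp [wvol]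

theorem wwt_nil (A : ℝ) (q : ℕ → ℕ → ℝ) : wwt A q [] = 1 := rfl
theorem wwt_cons (A : ℝ) (q : ℕ → ℕ → ℝ) (s : Stp) (w : List Stp) :
    wwt A q (s :: w) = s.wt A q * wwt A q w := by simp [wwt]
theorem wwt_append (A : ℝ) (q : ℕ → ℕ → ℝ) (u w : List Stp) :
    wwt A q (u ++ w) = wwt A q u * wwt A q w := by simp [wwt]

theorem WOk_nil (p : ℕ) : WOk p [] := trivial
theorem WOk_cons (p : ℕ) (s : Stp) (w : List Stp) : WOk p (s :: w) ↔ s.Ok p ∧ WOk (s.nx p) w := Iff.rfl
theorem WOk_append (p : ℕ) (u w : List Stp) : WOk p (u ++ w) ↔ WOk p u ∧ WOk (wend p u) w := by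
  induction u generalizing p with
  | nil => simp [WOk, wend]
  | cons s u ih => simp only [List.cons_append, WOk_cons, wend_cons, ih, and_assoc]

theorem Stp.wt_nonneg {A : ℝ} {q : ℕ → ℕ → ℝ} (hA : 0 ≤ A) (hq : ∀ k a, 0 ≤ q k a) (s : Stp) :
    0 ≤ s.wt A q := by
  cases s with
  | T => exact hA
  | L k a => exact hq k a
  | R k a => exact hq k a

theorem wwt_nonneg {A : ℝ} {q : ℕ → ℕ → ℝ} (hA : 0 ≤ A) (hq : ∀ k a, 0 ≤ q k a) (w : List Stp) :
    0 ≤ wwt A q w := by
  induction w with
  | nil => rw [wwt_nil]; exact zero_le_one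
  | cons s w ih => rw [wwt_cons]; exact mul_nonneg (s.wt_nonneg hA hq) ih

theorem Stp.one_le_nx {p : ℕ} {s : Stp} (h : s.Ok p) : 1 ≤ s.nx p := by
  cases s with
  | T => exact Nat.le_add_left 1 p
  | L k a => have h' : k + 3 ≤ p := h; show 1 ≤ p - (k + 2); omega
  | R k a => have h' : k + 3 ≤ p := h; show 1 ≤ p - (k + 2); omega

theorem one_le_wend {p : ℕ} {w : List Stp} (hp : 1 ≤ p) (h : WOk p w) : 1 ≤ wend p w := by
  induction w generalizing p with
  | nil => exact hp
  | cons s w ih => rw [wend_cons]; exact ih (Stp.one_le_nx h.1) h.2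

end SYS
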