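import Pool.Agent.SYS.A.Defs
import Pool.Agent.SYS.Num.Words

/-!
# Project SYS, numerical part: numbers of maps with holes, the law of the steps

`muG P F g` = number of maps with holes of the lengths in the multiset `P`, `F` triangles and genus
`g` (`0` if Euler's relation `2 V + 4 g + 2 #P = 4 + F + |P|` has no solution `V`); for `SYS.mu`,
`SYS.muL` see `SYS/A/BrA.lean` (`mu_eq`). `W k a` = number of discs of perimeter `k` with `a`
triangles. The number of words of discs with the numerical word `w` is `wwt 1 W w`, its probability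
under the random walk with independent steps with the parameter `x > 0` is `PRW x w`; `κ = 2 x`.
DO NOT CHANGE.
-/

namespace SYS.Num

open Real

/-- Number of maps with holes `P`, `F` triangles, genus `g`. -/
noncomputable def muG (P : Multiset ℕ) (F g : ℕ) : ℝ :=
  if Even (F + P.sum) ∧ 4 * g + 2 * Multiset.card P ≤ 4 + F + P.sum then
    (((SYS.A.muP P F).coeff ((4 + F + P.sum - 4 * g - 2 * Multiset.card P) / 2) : ℚ) : ℝ)
  else 0

/-- Number of discs of perimeter `k` with `a` triangles (`W 0 0 = 1`, `W 0 a = 0` for `a > 0`). -/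
noncomputable def W (k a : ℕ) : ℝ := muG {k} a 0

/-- `r = √(cosh² x + 2)`. -/
noncomputable def rr (x : ℝ) : ℝ := √(cosh x ^ 2 + 2)

/-- Probability of a new triangle. -/
noncomputable def AA (x : ℝ) : ℝ := (rr x + cosh x) / (2 * rr x)

/-- `λ(θ)`. -/
noncomputable def yy (x : ℝ) : ℝ := cosh x / (4 * rr x ^ 3)

/-- Drift of the perimeter. -/
noncomputable def dr (x : ℝ) : ℝ := sinh x / rr x

/-- Probability that a disc of perimeter `k` with `a` triangles is swallowed on a given side
(`W k a = 0` if `a + k` is odd). -/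
noncomputable def qq (x : ℝ) (k a : ℕ) : ℝ := yy x ^ (1 + (a + k) / 2) * W k a / AA x ^ (k + 2)

/-- Probability of a word. -/
noncomputable def PRW (x : ℝ) (w : List Stp) : ℝ := wwt (AA x) (qq x) w

/-- `n → ∞`, `g / n → θ` for `p = (n, g)`. -/
noncomputable def Fth (θ : ℝ) : Filter (ℕ × ℕ) :=
  Filter.comap Prod.fst Filter.atTop ⊓
    Filter.comap (fun p : ℕ × ℕ => (p.2 : ℝ) / p.1) (nhds θ)

/-- The relation between `θ` and `x`. -/
def Par (θ x : ℝ) : Prop :=
  0 < θ ∧ θ < 1 / 2 ∧ 0 < x ∧ 3 * x * cosh x = (1 - 2 * θ) * (sinh x * (cosh x ^ 2 + 2))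

end SYS.Num
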